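import Pool.Agent.Helper12.NK.St

/-!
# Project NK, module RDL: the faces after the deletion of a vertex
-/

set_option autoImplicit false

namespace Pool.Agent.Helper7.NK

open Pool.Agent.Helper12.NK
open Pool.Agent.Helper35.PM (Rot)
open Equiv Equiv.Perm

variable {V : Type}

private theorem fac_same {H : SimpleGraph V} (R : Rot H) {d e : H.Dart} (h : R.φ.SameCycle d e) :
    fac R d = fac R e := by
  ext x
  constructor
  · rintro ⟨f, h1, h2⟩
    exact ⟨f, h.symm.trans h1, h2⟩
  · rintro ⟨f, h1, h2⟩
    exact ⟨f, h.trans h1, h2⟩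

private theorem fst_mem {H : SimpleGraph V} (R : Rot H) (d : H.Dart) : d.fst ∈ fac R d :=
  ⟨d, SameCycle.refl _ _, rfl⟩

private theorem snd_mem {H : SimpleGraph V} (R : Rot H) (d : H.Dart) : d.snd ∈ fac R d :=
  ⟨R.φ d, sameCycle_apply_right.2 (SameCycle.refl _ _), R.φ_fst d⟩

private theorem fac_φ {H : SimpleGraph V} (R : Rot H) (d : H.Dart) : fac R (R.φ d) = fac R d :=
  fac_same R (sameCycle_apply_left.2 (SameCycle.refl _ _))

/-- MODULE RDL. -/
theorem hRDL : StRDL := by
  classical
  intro V _ G U w R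
  have _ := Fintype.ofFinite V
  have _ : Fintype (rst G U).Dart := Fintype.ofFinite _
  let H := rst G U
  let H' := rst G (U \ {w})
  let c : H'.Dart → H.Dart := fun d => ⟨(d.fst, d.snd), ⟨d.adj.1, d.adj.2.1.1, d.adj.2.2.1⟩⟩
  have hcf : ∀ d : H'.Dart, (c d).fst = d.fst := fun _ => rfl
  have hcs : ∀ d : H'.Dart, (c d).snd = d.snd := fun _ => rfl
  have hc : Function.Injective c := by
    intro d d' h
    have h1 := congrArg SimpleGraph.Dart.toProd h
    exact SimpleGraph.Dart.ext _ _ h1
  obtain ⟨R', -, hB, hC⟩ := R.map.exists_rot (G := H') id Function.injective_id c hc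
    (fun d => rfl) (fun d => rfl)
  -- the darts which survive
  have hrange : ∀ e : H.Dart, e.fst ≠ w → e.snd ≠ w → ∃ d, c d = e := by
    intro e h1 h2
    exact ⟨⟨(e.fst, e.snd), ⟨e.adj.1, ⟨e.adj.2.1, h1⟩, ⟨e.adj.2.2, h2⟩⟩⟩, rfl⟩
  have hne1 : ∀ d : H'.Dart, d.fst ≠ w := fun d => d.adj.2.1.2
  have hne2 : ∀ d : H'.Dart, d.snd ≠ w := fun d => d.adj.2.2.2
  refine ⟨R', ?_⟩
  intro d' d hd
  have hdc : c d' = d := by
    apply SimpleGraph.Dart.ext
    exact hd.symm
  by_cases hw : w ∈ fac R d
  · right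
    -- all darts of the new face lie in old faces containing `w`
    have step : ∀ e : H'.Dart, w ∈ fac R (c e) → w ∈ fac R (c (R'.φ e)) := by
      intro e he
      obtain ⟨k, hk1, hk2⟩ := hC e.symm
      have hφ : R'.φ e = R'.r e.symm := rfl
      rw [hφ, hk1]
      rcases Nat.eq_zero_or_pos k with h0 | h0
      · subst h0
        have h1 : (R.map.r ^ (0 + 1)) (c e.symm) = R.φ (c e) := by
          rw [zero_add, pow_one]
          rfl
        rw [h1, fac_φ]
        exact he
      · obtain ⟨j, rfl⟩ : ∃ j, k = j + 1 := ⟨k - 1, by omega⟩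
        have h1 := hk2 j (by omega)
        set f := (R.map.r ^ (j + 1)) (c e.symm) with hf
        have hfst : ∀ n : ℕ, ((R.map.r ^ n) (c e.symm)).fst = e.snd := by
          intro n
          induction n with
          | zero => rfl
          | succ n ih =>
            rw [pow_succ', Perm.mul_apply]
            exact (R.fst_r _).trans ih
        have h2 : f.snd = w := by
          by_contra hns
          exact h1 (hrange f (by rw [hf, hfst]; exact hne2 e) hns)
        have h3 : (R.map.r ^ (j + 1 + 1)) (c e.symm) = R.φ f.symm := by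
          rw [pow_succ', Perm.mul_apply, ← hf]
          change R.r f = R.r f.symm.symm
          rw [SimpleGraph.Dart.symm_symm]
        rw [h3, fac_φ]
        have h4 := fst_mem R f.symm
        have h5 : f.symm.fst = w := h2
        rw [h5] at h4
        exact h4
    have hall : ∀ n : ℕ, w ∈ fac R (c ((R'.φ ^ n) d')) := by
      intro n
      induction n with
      | zero =>
        rw [pow_zero, Perm.one_apply, hdc]
        exact hw
      | succ n ih =>
        rw [pow_succ', Perm.mul_apply]
        exact step _ ih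
    rintro x ⟨e', he', hx⟩
    obtain ⟨n, hn⟩ := he'.exists_nat_pow_eq
    refine ⟨c e', ?_, ?_⟩
    · rw [← hn]
      exact hall n
    · rw [← hx]
      exact fst_mem R (c e')
  · left
    refine ⟨hw, ?_⟩
    have step : ∀ e : H'.Dart, w ∉ fac R (c e) → c (R'.φ e) = R.φ (c e) := by
      intro e he
      obtain ⟨e2, he2⟩ := hrange (R.φ (c e)) (by rw [R.φ_fst]; exact hne2 e) (by
        intro h
        apply he
        rw [← fac_φ, ← h]
        exact snd_mem R _)
      rw [hB e e2 he2.symm, he2]
    have hall : ∀ n : ℕ, w ∉ fac R (c ((R'.φ ^ n) d')) ∧ c ((R'.φ ^ n) d') = (R.φ ^ n) d := by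
      intro n
      induction n with
      | zero =>
        rw [pow_zero, Perm.one_apply, pow_zero, Perm.one_apply, hdc]
        exact ⟨hw, rfl⟩
      | succ n ih =>
        have h1 := step _ ih.1
        rw [pow_succ', Perm.mul_apply, pow_succ', Perm.mul_apply, h1, ih.2, fac_φ]
        rw [ih.2] at ih
        exact ⟨ih.1, rfl⟩
    ext x
    constructor
    · rintro ⟨e', he', hx⟩
      obtain ⟨n, hn⟩ := he'.exists_nat_pow_eq
      refine ⟨c e', ?_, hx⟩
      rw [← hn, (hall n).2]
      exact ⟨n, by simp⟩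
    · rintro ⟨e, he, hx⟩
      obtain ⟨n, hn⟩ := he.exists_nat_pow_eq
      refine ⟨(R'.φ ^ n) d', ⟨n, by simp⟩, ?_⟩
      rw [← hx, ← hn, ← (hall n).2]

end Pool.Agent.Helper7.NK
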